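import Pool.Agent.H23.Adic2

set_option autoImplicit false

open Finset

namespace Pool.Agent.Results.MP_68df70_lc.Half

/-- The N-adic integer with digit sequence `s` equals the reduced fraction `f / g`. -/
def IsFrac (N : ℕ) (s : ℕ → ℕ) (f g : ℤ) : Prop :=
  0 < g ∧ Int.gcd f g = 1 ∧ ∀ m, (N : ℤ) ^ m ∣ g * (∑ i ∈ range m, (s i : ℤ) * (N : ℤ) ^ i) - f

/-- N-adic complexity of an infinite sequence (`⊤` if its N-adic integer is irrational). -/
noncomputable def lamInf (N : ℕ) (s : ℕ → ℕ) : EReal :=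
  ⨅ (f : ℤ) (g : ℤ) (_ : IsFrac N s f g), (Real.logb N (max |f| |g| : ℤ) : ℝ)

/-- N-adic complexity of a finite sequence: minimum over all infinite N-ary extensions. -/
noncomputable def lamFin (N : ℕ) {n : ℕ} (a : Fin n → Fin N) : ℝ :=
  (⨅ (s : ℕ → ℕ) (_ : ∀ i, s i < N) (_ : ∀ i : Fin n, s i = a i), lamInf N s).toReal

/-- The average over all `N ^ n` finite sequences of length `n`. -/
noncomputable def E (N n : ℕ) : ℝ := (∑ a : Fin n → Fin N, lamFin N a) / N ^ n

open Pool.Agent.H23.Adic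

theorem result : ∃ C : ℝ, ∀ N n : ℕ, 2 ≤ N → |E N n - n / 2| ≤ C := by
  let b := Module.Basis.singleton (Fin 1) ℤ
  have hb : ∀ x, nm b x = x.natAbs := fun x => by simp [nm, b]
  have e : ∀ f g : ℤ, ((max |f| |g| : ℤ) : ℝ) = (max f.natAbs g.natAbs : ℕ) := fun f g => by simp
  obtain ⟨C, hC⟩ := avg2 b le_rfl
  refine ⟨C + 0, fun N n hN => ?_⟩
  obtain ⟨a1, a2, a3, a4⟩ := digits b le_rfl (π := N) (fun i => by simp [b]) (e := N) hN
    (by simp) (by simp)
  refine hC N n N _ 0 hN a1 a2 a3 a4 (fun a t ht => ?_) fun a s f g s1 s2 s3 s4 => ?_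
  · simp only [lamInf, iInf_lt_iff, EReal.coe_lt_coe_iff] at ht
    obtain ⟨s, -, s2, f, g, ⟨h1, h2, h3⟩, h4⟩ := ht
    refine ⟨s, f, g, s2, ?_, h3 n, by rw [hb, hb, ← e]; simpa using h4.le⟩
    obtain ⟨u, v, huv⟩ := Int.isCoprime_iff_gcd_eq_one.2 h2
    refine ⟨u * s 0 + v, ?_⟩
    have := (h3 1).mul_left u
    simp only [pow_one, range_one, sum_singleton, pow_zero, mul_one] at this
    convert this using 1
    linear_combination huv
  · have g0 : g ≠ 0 := by
      rintro rfl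
      obtain ⟨h, e⟩ := s3
      have := a3 0 1 (by omega) (by omega) (by simpa using e)
      omega
    obtain ⟨k, f', g', k0, hg, rfl, rfl⟩ : ∃ k f' g' : ℤ, 0 < g' ∧ Int.gcd f' g' = 1 ∧
        f = f' * k ∧ g = g' * k := by
      obtain ⟨k, f', g', -, h1, h2, h3⟩ := Int.exists_gcd_one' (Int.gcd_pos_of_ne_zero_right f g0)
      have : g' ≠ 0 := by rintro rfl; simp [h3] at g0
      rcases this.lt_or_gt with c | c
      · exact ⟨-k, -f', -g', by omega, by simpa, by simpa, by simpa⟩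
      · exact ⟨k, f', g', c, h1, h2, h3⟩
    have k1 : 1 ≤ k.natAbs := Int.natAbs_pos.2 (right_ne_zero_of_mul g0)
    refine iInf_le_of_le s (iInf_le_of_le s1 (iInf_le_of_le s2 (iInf_le_of_le f' (iInf_le_of_le g'
      (iInf_le_of_le ⟨k0, hg, fun m => ?_⟩ (EReal.coe_le_coe_iff.2 ?_))))))
    · refine (cop s3 m).of_mul_right_right.dvd_of_dvd_mul_left ?_
      convert s4 m using 1
      simp only [H23.Adic.val]; ring
    · rw [e, hb, hb, Nat.cast_one, one_mul, add_zero]
      refine lg_mono hN (max_le_max ?_ ?_) <;> rw [Int.natAbs_mul] <;>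
        exact Nat.le_mul_of_pos_right _ k1

end Pool.Agent.Results.MP_68df70_lc.Half
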